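import Pool.Agent.Run7.h753.Final

/-!
# Rational function fields have the smallest symbol length in their dimension

Let `p` be a prime, let `κ` be an algebraically closed field of arbitrary characteristic and let
`L` be a finitely generated field extension of `ℂ` of transcendence degree `m`. Then the symbol
length of `K₂^M(κ(x₁, …, xₘ))/p` is at most the symbol length of `K₂^M(L)/p`.
-/

set_option autoImplicit false

namespace Pool.Agent.Results.MP_5bbd08_al.RationalMinimal

universe u v w

theorem result (p : ℕ) (hp : p.Prime) (m : ℕ)
    (κ : Type u) [Field κ] [IsAlgClosed κ] (K : Type v) [Field K]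
    [Algebra (MvPolynomial (Fin m) κ) K] [IsFractionRing (MvPolynomial (Fin m) κ) K]
    (L : Type w) [Field L] [Algebra ℂ L]
    (hfg : ∃ s : Finset L, IntermediateField.adjoin ℂ (s : Set L) = ⊤)
    (hL : Algebra.trdeg ℂ L = m) :
    Run7.h753.symbolLength p K ≤ Run7.h753.symbolLength p L :=
  Run7.h753.symbolLength_rational (κ := κ) hp hfg hL

end Pool.Agent.Results.MP_5bbd08_al.RationalMinimal
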