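import Pool.Agent.Run7.h753.Final

/-!
# Strict growth of the symbol length with the transcendence degree

Let `p` be a prime and let `1 ≤ a < b`. If `K` is any field of transcendence degree at most `a` over
some algebraically closed field `κ` (of arbitrary characteristic) and `L` is a finitely generated
field extension of `ℂ` of transcendence degree `b`, then the symbol length of `K₂^M(L)/p` is at
least `b - a` plus the symbol length of `K₂^M(K)/p`.
-/

set_option autoImplicit false

namespace Pool.Agent.Results.MP_5bbd08_al.StrictGrowth

universe u v w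

theorem result (p : ℕ) (hp : p.Prime) (a b : ℕ) (ha : 1 ≤ a) (hab : a < b)
    (κ : Type u) [Field κ] [IsAlgClosed κ] (K : Type v) [Field K] [Algebra κ K]
    (hK : Algebra.trdeg κ K ≤ a)
    (L : Type w) [Field L] [Algebra ℂ L]
    (hfg : ∃ s : Finset L, IntermediateField.adjoin ℂ (s : Set L) = ⊤)
    (hL : Algebra.trdeg ℂ L = b) :
    Run7.h753.symbolLength p K + ((b - a : ℕ) : ℕ∞) ≤ Run7.h753.symbolLength p L :=
  Run7.h753.symbolLength_growth hp ha hab hK hfg hL

end Pool.Agent.Results.MP_5bbd08_al.StrictGrowth
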